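import Pool.Agent.Lead.Cox

namespace Pool.Agent.Results.MP_95a67a_ag.Counterexample

open Pool.Agent.Lead.Cox

theorem result : ∃ (n r : ℕ) (u : Fin r → Fin n → ℤ) (S : Set (Finset (Fin r)))
    (F : Fin (n + 1) → MvPolynomial (Fin r) ℂ) (D : Fin (n + 1) → Fin r → ℤ),
    IsCompleteSimplicialFan u S ∧ (∀ j, F j ≠ 0) ∧ (∀ j, F j ∈ piece u (D j)) ∧ (∀ j, F j ∈ irr S) ∧
    (∀ x : Fin r → ℂ, (∀ j, MvPolynomial.eval x (F j) = 0) →
      ∀ g ∈ irr S, MvPolynomial.eval x g = 0) ∧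
    2 ≤ Module.rank ℂ (↥(piece u (∑ j, D j - fun _ => 1)) ⧸
      ((Ideal.span (Set.range F)).restrictScalars ℂ).comap
        (piece u (∑ j, D j - fun _ => 1)).subtype) :=
  ⟨2, 4, uu, SS, FF, DD, fan, FF_ne, FF_mem, FF_irr, nozero, rank_ge⟩

end Pool.Agent.Results.MP_95a67a_ag.Counterexample
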